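import Pool.Agent.H116.GAdic9

namespace Pool.Agent.Results.MP_1a9025_nt.OneInfinitePart

open Pool.Agent.H116.GA

/-- If at most one part is infinite then `S(G, 𝒲)` is empty, for every order `h`. -/
theorem result (h : ℕ) (g : ℕ → ℕ) (hg : IsGAdic g) (W : Fin h → Set ℕ)
    (hW : IsPartition W) (i : Fin h) (hfin : ∀ k, k ≠ i → (W k).Finite) :
    {a | a ∈ AA g W ∧ MinimalAsympBasis h (AA g W \ {a})} = ∅ :=
  S_empty_one_infinite hg hW hfin

end Pool.Agent.Results.MP_1a9025_nt.OneInfinitePart
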