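import Pool.Agent.H116.GAdic7

namespace Pool.Agent.Results.MP_1a9025_nt.OrderTwo

open Pool.Agent.H116.GA

/-- `S(G, 𝒲)`: the elements `a` of `A = {0} ∪ A_G(𝒲)` for which `A \ {a}` is a minimal asymptotic
basis of order `h` -/
def S (g : ℕ → ℕ) {h : ℕ} (W : Fin h → Set ℕ) : Set ℕ :=
  {a | a ∈ AA g W ∧ MinimalAsympBasis h (AA g W \ {a})}

/-- both parts are infinite when one of them is the set of odd numbers -/
lemma infinite_of_odds {W : Fin 2 → Set ℕ} (hW : IsPartition W) {k : Fin 2} (hk : W k = Odds) :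
    ∀ k', (W k').Infinite := by
  intro k'
  by_cases h : k' = k
  · rw [h, hk]
    apply Set.infinite_of_injective_forall_mem (f := fun n : ℕ => 2 * n + 1)
    · intro a b hab
      have hab : 2 * a + 1 = 2 * b + 1 := hab
      omega
    · intro n
      change (2 * n + 1) % 2 = 1
      omega
  · apply Set.infinite_of_injective_forall_mem (f := fun n : ℕ => 2 * n)
    · intro a b hab
      have hab : 2 * a = 2 * b := hab
      omega
    · intro n
      obtain ⟨s, hs⟩ := part_ex hW (2 * n)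
      by_cases h2 : s = k
      · rw [h2, hk] at hs
        have hs : (2 * n) % 2 = 1 := hs
        omega
      · rw [fin2_eq h h2] at hs
        exact hs

lemma exc_of_odds {g : ℕ → ℕ} {V : Set ℕ} (hV : V = Odds)
    (hdbl : ∀ j, 1 ≤ j → g (j + 1) = 2 * g j) : Exc g V := by
  intro j hj
  rw [hV] at hj ⊢
  have hj : j % 2 = 1 := hj
  refine ⟨by omega, fun h => ?_, hdbl j (by omega)⟩
  have h : (j - 1) % 2 = 1 := h
  omega

/-- Complete answer for `h = 2`. -/
theorem result (g : ℕ → ℕ) (hg : IsGAdic g) (W : Fin 2 → Set ℕ) (hW : IsPartition W) :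
    ((∃ k, (W k).Finite) → S g W = ∅) ∧
    ((∃ k, W k = Odds) → (∀ j, g j = 2 ^ j) → S g W = {0}) ∧
    ((∃ k, W k = Odds) → (∀ j, g (j + 1) = 3 * 2 ^ j) → S g W = {0, 1}) ∧
    ((∀ k, (W k).Infinite) → (∀ k, ¬ Exc g (W k)) → S g W = {0}) ∧
    ((∀ k, (W k).Infinite) → (∃ k, Exc g (W k)) →
      ¬ ((∃ k, W k = Odds) ∧ ((∀ j, g j = 2 ^ j) ∨ (∀ j, g (j + 1) = 3 * 2 ^ j))) →
      S g W = ∅) := by
  refine ⟨?_, ?_, ?_, ?_, ?_⟩
  · rintro ⟨k, hfin⟩
    obtain ⟨i, hi⟩ : ∃ i : Fin 2, i ≠ k := exists_ne k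
    exact S_empty_of_finite hg hW hi.symm hfin
  · rintro ⟨k, hk⟩ hpow
    obtain ⟨i, hi⟩ : ∃ i : Fin 2, i ≠ k := exists_ne k
    have hdbl : ∀ j, 1 ≤ j → g (j + 1) = 2 * g j := by
      intro j _
      rw [hpow, hpow, pow_succ]; ring
    refine S_zero_exc hg hW hi.symm (exc_of_odds hk hdbl) (infinite_of_odds hW hk) ?_
    intro b hb hf
    obtain ⟨hb0, hbs⟩ := (mem_AG_iff hg _ _).1 hb
    obtain ⟨h1, h2⟩ := free_odds hg (fun j hj => part_not hW hj hi.symm) hk hdbl hbs hf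
    have : g 1 = 2 := by rw [hpow]; norm_num
    rw [this] at h1 h2
    omega
  · rintro ⟨k, hk⟩ hpow
    obtain ⟨i, hi⟩ : ∃ i : Fin 2, i ≠ k := exists_ne k
    have hdbl : ∀ j, 1 ≤ j → g (j + 1) = 2 * g j := by
      intro j hj
      obtain ⟨p, rfl⟩ : ∃ p, j = p + 1 := ⟨j - 1, by omega⟩
      rw [hpow, hpow, pow_succ]; ring
    have hexc := exc_of_odds hk hdbl
    have hg1 : g 1 = 3 := by have := hpow 0; simpa using this
    have hev : ∀ j, j % 2 = 0 → j ∈ W i := by
      intro j hj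
      obtain ⟨k', hk'⟩ := part_ex hW j
      by_cases h : k' = i
      · exact h ▸ hk'
      · have h1 : j ∈ W k := (fin2_eq hi.symm h) ▸ hk'
        rw [hk] at h1
        have h1 : j % 2 = 1 := h1
        omega
    have h1m : 1 ∈ AG g (W i) := by
      have := single_mem hg 0 (hev 0 rfl)
      rwa [hg.1] at this
    have h1f : Free g (W i) (W k) 1 := by
      intro v hv
      obtain ⟨v0, v1, v2⟩ := hexc v hv
      rw [hk] at hv
      have hv : v % 2 = 1 := hv
      refine ⟨v2, v - 1, by omega, fun t h1 h2 => ?_, ?_⟩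
      · exact hev t (by omega)
      · rcases Nat.eq_zero_or_pos (v - 1) with hz | hz
        · rw [hz, hg.1, Nat.div_one, Nat.div_one, zero_add, hg1]
          norm_num
        · have h5 : g 1 ≤ g (v - 1) := hg.2.1.monotone hz
          rw [Nat.div_eq_of_lt (show 1 < g (v - 1) by omega), Nat.zero_mod]
          have := two_le_quot hg (v - 1)
          omega
    refine S_pair_exc hg hW hi.symm hexc (infinite_of_odds hW hk) h1m h1f ?_
      (not_pair hg hW hi.symm hk hpow)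
    intro b hb hf
    obtain ⟨hb0, hbs⟩ := (mem_AG_iff hg _ _).1 hb
    obtain ⟨h1, h2⟩ := free_odds hg (fun j hj => part_not hW hj hi.symm) hk hdbl hbs hf
    rw [hg1] at h1 h2
    omega
  · intro hinf hexc
    exact S_zero_of_not_exc hg hW hinf hexc
  · rintro hinf ⟨k, hexc⟩ hno
    obtain ⟨i, hi⟩ : ∃ i : Fin 2, i ≠ k := exists_ne k
    by_cases hR : ∀ b ∈ AG g (W i), Free g (W i) (W k) b → b = 1
    · obtain ⟨h1, h2⟩ := shape hg hW hi.symm hexc hR
      exact absurd ⟨⟨k, h1⟩, h2⟩ hno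
    · push Not at hR
      obtain ⟨b, hb, hf, hb1⟩ := hR
      exact S_empty_exc hg hW hi.symm hexc hinf hb hb1 hf

end Pool.Agent.Results.MP_1a9025_nt.OrderTwo
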