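import Pool.Agent.H116.GAdic3

namespace Pool.Agent.Results.MP_1a9025_nt.ThickPartitions

open Pool.Agent.H116.GA

/-- For `h ≥ 2`, a `G`-adic sequence `g` and a partition `W` of the naturals into `h` thick parts,
the set `S(G, W)` is empty if at most one part is infinite, and `{0}` otherwise. -/
theorem result (h : ℕ) (hh : 2 ≤ h) (g : ℕ → ℕ) (hg : IsGAdic g) (W : Fin h → Set ℕ)
    (hW : IsPartition W) (hthick : ∀ k, Thick g h (W k)) :
    ((∃ i, ∀ k, k ≠ i → (W k).Finite) →
      {a | a ∈ AA g W ∧ MinimalAsympBasis h (AA g W \ {a})} = ∅) ∧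
    ((¬ ∃ i, ∀ k, k ≠ i → (W k).Finite) →
      {a | a ∈ AA g W ∧ MinimalAsympBasis h (AA g W \ {a})} = {0}) := by
  have hAU : AsympBasis h (AU g W) := AU_asymp hg hW (by omega)
  constructor
  · rintro ⟨i, hfin⟩
    ext a
    simp only [Set.mem_setOf_eq, Set.mem_empty_iff_false, iff_false, not_and]
    intro haA hmin
    -- `W i` is infinite
    have hinf : (W i).Infinite := by
      intro hWi
      have hall : ∀ k, (W k).Finite := by
        intro k
        by_cases hk : k = i
        · exact hk ▸ hWi
        · exact hfin k hk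
      have : (⋃ k, W k).Finite := Set.finite_iUnion hall
      rw [hW.2.2] at this
      exact Set.infinite_univ this
    rcases haA with ha0 | haU
    · have ha0 : a = 0 := ha0
      rw [ha0, AA_diff_zero hg] at hmin
      obtain ⟨a', ha', hb⟩ := AU_not_minimal hg hW hfin
      refine hmin.2 (AU g W \ {a'}) ?_ hb
      refine ⟨Set.diff_subset, fun hsub => ?_⟩
      exact (hsub ha').2 rfl
    · obtain ⟨k, hk⟩ := Set.mem_iUnion.1 haU
      by_cases hki : k = i
      · subst hki
        obtain ⟨t, htW, ht⟩ := hinf.exists_gt a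
        have h1 := single_mem hg t htW
        have h2 := glt hg t
        have h3 := asymp_of_finite hg hW hfin {a, g t} (by
          intro b hb
          rw [Finset.mem_insert, Finset.mem_singleton] at hb
          rcases hb with hb | hb
          · rw [hb]; exact hk
          · rw [hb]; exact h1)
        refine hmin.2 _ ?_ h3
        refine ⟨?_, fun hsub => ?_⟩
        · intro x hx
          refine ⟨hx.1, fun hxa => hx.2 ?_⟩
          have hxa : x = a := hxa
          rw [hxa]; simp
        · have h4 : g t ∈ AA g W \ {a} := by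
            refine ⟨Or.inr (Set.mem_iUnion.2 ⟨k, h1⟩), fun h5 => ?_⟩
            have h5 : g t = a := h5
            omega
          exact (hsub h4).2 (by simp)
      · exact not_asymp hg hW hk (fun k' _ => hthick k') (fun h => hki h.symm) hinf hmin.1
  · intro hno
    ext a
    simp only [Set.mem_setOf_eq, Set.mem_singleton_iff]
    have key : ∀ b ∈ AU g W, ¬ AsympBasis h (AA g W \ {b}) := by
      intro b hb
      obtain ⟨k, hk⟩ := Set.mem_iUnion.1 hb
      push Not at hno
      obtain ⟨k0, hk0, hk0inf⟩ := hno k
      exact not_asymp hg hW hk (fun k' _ => hthick k') hk0 hk0inf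
    constructor
    · rintro ⟨haA, hmin⟩
      rcases haA with ha0 | haU
      · exact ha0
      · exact absurd hmin.1 (key a haU)
    · intro ha
      rw [ha, AA_diff_zero hg]
      refine ⟨Or.inl rfl, hAU, fun B hB hBb => ?_⟩
      obtain ⟨hsub, hne⟩ := hB
      obtain ⟨b, hbU, hbB⟩ := Set.not_subset.1 hne
      refine key b hbU (asymp_mono ?_ hBb)
      intro x hx
      refine ⟨Or.inr (hsub hx), fun hxb => ?_⟩
      have hxb : x = b := hxb
      exact hbB (hxb ▸ hx)

end Pool.Agent.Results.MP_1a9025_nt.ThickPartitions
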